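import Pool.Agent.W890.SF.Stm

set_option autoImplicit false

namespace Pool.Agent.W140.SAM

open Finset Pool.Agent.W890.SF

/-- greedy choice of disjoint sets -/
theorem greedyD {α : Type} [DecidableEq α] (m : ℕ) (W : Finset α) (T : α → Finset (Finset α))
    (X : Finset α) (hT : ∀ v ∈ X, ∀ S ∈ T v, S ⊆ W ∧ S.card = m)
    (hg : ∀ v ∈ X, ∀ U ⊆ W, U.card ≤ m * X.card → ∃ S ∈ T v, Disjoint S U) :
    ∃ f : α → Finset α, (∀ v ∈ X, f v ∈ T v) ∧
      (∀ v ∈ X, ∀ w ∈ X, v ≠ w → Disjoint (f v) (f w)) := by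
  classical
  have key : ∀ Y : Finset α, Y ⊆ X → ∃ f : α → Finset α, (∀ v ∈ Y, f v ∈ T v) ∧
      (∀ v ∈ Y, ∀ w ∈ Y, v ≠ w → Disjoint (f v) (f w)) := by
    intro Y
    induction Y using Finset.induction_on with
    | empty => intro _; exact ⟨fun _ => ∅, by simp, by simp⟩
    | insert a s ha ih =>
      intro hs
      obtain ⟨f, hf1, hf2⟩ := ih (fun x hx => hs (mem_insert_of_mem hx))
      have haX : a ∈ X := hs (mem_insert_self a s)
      have hsX : s ⊆ X := fun x hx => hs (mem_insert_of_mem hx)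
      obtain ⟨S, hS, hSU⟩ := hg a haX (s.biUnion f) (by
        intro x hx
        obtain ⟨v, hv, hxv⟩ := mem_biUnion.1 hx
        exact (hT v (hsX hv) _ (hf1 v hv)).1 hxv) (by
        calc (s.biUnion f).card ≤ ∑ v ∈ s, (f v).card := card_biUnion_le
          _ = ∑ v ∈ s, m := sum_congr rfl (fun v hv => (hT v (hsX hv) _ (hf1 v hv)).2)
          _ = m * s.card := by rw [sum_const, smul_eq_mul, mul_comm]
          _ ≤ m * X.card := Nat.mul_le_mul_left _ (card_le_card hsX))
      have hd : ∀ u ∈ s, Disjoint S (f u) := fun u hu =>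
        hSU.mono_right (subset_biUnion_of_mem f hu)
      have hne : ∀ u ∈ s, u ≠ a := fun u hu hua => ha (hua ▸ hu)
      refine ⟨Function.update f a S, ?_, ?_⟩
      · intro v hv
        rcases mem_insert.1 hv with hva | hv'
        · rw [hva, Function.update_self]; exact hS
        · rw [Function.update_of_ne (hne v hv')]; exact hf1 v hv'
      · intro v hv w hw hvw
        rcases mem_insert.1 hv with hva | hv'
        · rcases mem_insert.1 hw with hwa | hw'
          · exact absurd (hva.trans hwa.symm) hvw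
          · rw [hva, Function.update_self, Function.update_of_ne (hne w hw')]
            exact hd w hw'
        · rcases mem_insert.1 hw with hwa | hw'
          · rw [hwa, Function.update_self, Function.update_of_ne (hne v hv')]
            exact (hd v hv').symm
          · rw [Function.update_of_ne (hne v hv'), Function.update_of_ne (hne w hw')]
            exact hf2 v hv' w hw' hvw
  exact key X (Subset.refl X)

/-- few `m`-subsets of `W` meet `U` -/
theorem cntD {α : Type} [DecidableEq α] (m : ℕ) (W U : Finset α) (N : ℕ)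
    (hN : W.card ≤ N) :
    ((W.powersetCard m).filter (fun S => ¬ Disjoint S U)).card ≤ U.card * N ^ (m - 1) := by
  have hsub : (W.powersetCard m).filter (fun S => ¬ Disjoint S U) ⊆
      U.biUnion (fun u => ((W.erase u).powersetCard (m - 1)).image (insert u)) := by
    intro S hS
    rw [mem_filter, mem_powersetCard] at hS
    obtain ⟨⟨hSW, hc⟩, hd⟩ := hS
    rw [not_disjoint_iff] at hd
    obtain ⟨u, huS, huU⟩ := hd
    rw [mem_biUnion]
    refine ⟨u, huU, ?_⟩
    rw [mem_image]
    refine ⟨S.erase u, ?_, insert_erase huS⟩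
    rw [mem_powersetCard]
    refine ⟨erase_subset_erase u hSW, ?_⟩
    rw [card_erase_of_mem huS, hc]
  calc _ ≤ _ := card_le_card hsub
    _ ≤ ∑ u ∈ U, (((W.erase u).powersetCard (m - 1)).image (insert u)).card := card_biUnion_le
    _ ≤ ∑ u ∈ U, N ^ (m - 1) := by
        apply sum_le_sum
        intro u hu
        calc _ ≤ ((W.erase u).powersetCard (m - 1)).card := card_image_le
          _ = (W.erase u).card.choose (m - 1) := card_powersetCard _ _
          _ ≤ (W.erase u).card ^ (m - 1) := Nat.choose_le_pow _ _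
          _ ≤ N ^ (m - 1) := Nat.pow_le_pow_left ((card_erase_le).trans hN) _
    _ = U.card * N ^ (m - 1) := by rw [sum_const, smul_eq_mul]

theorem mono_ty {α : Type} [DecidableEq α] (k j : ℕ) (H : Finset (Finset α))
    (A B A' B' : Finset α) (hA : A' ⊆ A) (hB : B' ⊆ B) (hAB : Disjoint A B) (v : α) :
    (tys k j A' B' v).card + (ty k j H A B v).card ≤
      (tys k j A B v).card + (ty k j H A' B' v).card := by
  have h1 : tys k j A' B' v ⊆ tys k j A B v := by
    intro S hS
    simp only [tys, mem_filter, mem_powersetCard] at hS ⊢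
    obtain ⟨⟨h1, h2⟩, h3⟩ := hS
    refine ⟨⟨h1.trans (erase_subset_erase v (union_subset_union hA hB)), h2⟩, ?_⟩
    rw [← h3]
    congr 1
    ext x
    simp only [mem_inter]
    constructor
    · rintro ⟨hx, hxA⟩
      refine ⟨hx, ?_⟩
      have := mem_of_mem_erase (h1 hx)
      rcases mem_union.1 this with h | h
      · exact h
      · exact absurd (hB h) (disjoint_left.1 hAB hxA)
    · rintro ⟨hx, hxA⟩
      exact ⟨hx, hA hxA⟩
  have e1 : ((tys k j A' B' v).filter (fun S => insert v S ∈ H)).card +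
      ((tys k j A' B' v).filter (fun S => ¬ insert v S ∈ H)).card = (tys k j A' B' v).card :=
    card_filter_add_card_filter_not _
  have e2 : ((tys k j A B v).filter (fun S => insert v S ∈ H)).card +
      ((tys k j A B v).filter (fun S => ¬ insert v S ∈ H)).card = (tys k j A B v).card :=
    card_filter_add_card_filter_not _
  have e3 : ((tys k j A' B' v).filter (fun S => ¬ insert v S ∈ H)).card ≤
      ((tys k j A B v).filter (fun S => ¬ insert v S ∈ H)).card :=
    card_le_card (filter_subset_filter _ h1)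
  unfold ty
  omega

theorem grd (h : S_SHF) : S_GRD := by
  classical
  intro k hk ε hε
  obtain ⟨δ0, hδ0, n0, h⟩ := h k hk
  obtain ⟨m, rfl⟩ : ∃ m, k = m + 1 := ⟨k - 1, by omega⟩
  have hm : 2 ≤ m := by omega
  have hmr : (2 : ℝ) ≤ m := by exact_mod_cast hm
  obtain ⟨δ, hδ, hδ1, hδ2, hδ3⟩ : ∃ δ : ℝ, 0 < δ ∧ 4 * ((m : ℝ) + 1) * δ ≤ ε ∧
      4 * ((m : ℝ) + 1) * δ ≤ 1 ∧ 2 ^ m * δ ≤ δ0 := by
    have hp : (0 : ℝ) < 4 * ((m : ℝ) + 1) := by positivity
    have h2 : (0 : ℝ) < 2 ^ m := by positivity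
    refine ⟨min (min (ε / (4 * ((m : ℝ) + 1))) (1 / (4 * ((m : ℝ) + 1)))) (δ0 / 2 ^ m), ?_, ?_,
      ?_, ?_⟩
    · exact lt_min (lt_min (div_pos hε hp) (div_pos one_pos hp)) (div_pos hδ0 h2)
    · have := (min_le_left (min (ε / (4 * ((m : ℝ) + 1))) (1 / (4 * ((m : ℝ) + 1))))
        (δ0 / 2 ^ m)).trans (min_le_left _ _)
      calc _ ≤ 4 * ((m : ℝ) + 1) * (ε / (4 * ((m : ℝ) + 1))) := by gcongr
        _ = ε := by field_simp
    · have := (min_le_left (min (ε / (4 * ((m : ℝ) + 1))) (1 / (4 * ((m : ℝ) + 1))))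
        (δ0 / 2 ^ m)).trans (min_le_right _ _)
      calc _ ≤ 4 * ((m : ℝ) + 1) * (1 / (4 * ((m : ℝ) + 1))) := by gcongr
        _ = 1 := by field_simp
    · have := min_le_right (min (ε / (4 * ((m : ℝ) + 1))) (1 / (4 * ((m : ℝ) + 1))))
        (δ0 / 2 ^ m)
      calc _ ≤ 2 ^ m * (δ0 / 2 ^ m) := by gcongr
        _ = δ0 := by field_simp
  refine ⟨δ, hδ, 2 * n0 + 1, ?_⟩
  intro α _ N A B XA XB H hN hAB hXX hWX hcard hXA hXB hbal hA hB hTA hTB
  simp only [Nat.add_sub_cancel] at *
  have hN0 : 0 < N := by omega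
  have hNr : (0 : ℝ) < N := by exact_mod_cast hN0
  set X := XA ∪ XB with hXdef
  have hXc : X.card = XA.card + XB.card := card_union_of_disjoint hXX
  have hXr : (X.card : ℝ) ≤ 2 * δ * N := by rw [hXc]; push_cast; linarith
  set T : α → Finset (Finset α) := fun v => ty (m + 1) (if v ∈ XA then 0 else 1) H A B v with hTdef
  have hT : ∀ v ∈ X, ∀ S ∈ T v, (S ⊆ A ∪ B ∧ S.card = m) ∧ insert v S ∈ H ∧
      (S ∩ A).card = (if v ∈ XA then 0 else 1) := by
    intro v hv S hS
    simp only [hTdef, ty, tys, mem_filter, mem_powersetCard, Nat.add_sub_cancel] at hS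
    obtain ⟨⟨⟨h1, h2⟩, h3⟩, h4⟩ := hS
    exact ⟨⟨h1.trans (erase_subset _ _), h2⟩, h4, h3⟩
  have hTc : ∀ v ∈ X, ε * (N : ℝ) ^ m ≤ ((T v).card : ℝ) := by
    intro v hv
    by_cases hvA : v ∈ XA
    · have := hTA v hvA
      simp only [hTdef, hvA, if_true]
      exact this
    · have hvB : v ∈ XB := by
        rcases mem_union.1 hv with h | h
        · exact absurd h hvA
        · exact h
      have := hTB v hvB
      simp only [hTdef, hvA, if_false]
      exact this
  have hABc : (A ∪ B).card ≤ N := by rw [card_union_of_disjoint hAB]; omega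
  obtain ⟨f, hf1, hf2⟩ := greedyD m (A ∪ B) T X (fun v hv S hS => (hT v hv S hS).1) (by
    intro v hv U hU hUc
    by_contra hcon
    push Not at hcon
    have hsub : T v ⊆ ((A ∪ B).powersetCard m).filter (fun S => ¬ Disjoint S U) := by
      intro S hS
      rw [mem_filter, mem_powersetCard]
      exact ⟨(hT v hv S hS).1, hcon S hS⟩
    have h1 := (card_le_card hsub).trans (cntD m (A ∪ B) U N hABc)
    have h2 : ((T v).card : ℝ) ≤ (U.card : ℝ) * (N : ℝ) ^ (m - 1) := by exact_mod_cast h1
    have h3 : (U.card : ℝ) ≤ m * (2 * δ * N) := by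
      calc (U.card : ℝ) ≤ m * X.card := by exact_mod_cast hUc
        _ ≤ m * (2 * δ * N) := by gcongr
    have h4 : (N : ℝ) ^ m = N * (N : ℝ) ^ (m - 1) := by
      rw [← pow_succ']; congr 1; omega
    have h5 := hTc v hv
    have h6 : (0 : ℝ) < (N : ℝ) ^ (m - 1) := by positivity
    have h7 : ε * (N * (N : ℝ) ^ (m - 1)) ≤ (m * (2 * δ * N)) * (N : ℝ) ^ (m - 1) := by
      rw [← h4]
      calc _ ≤ _ := h5
        _ ≤ _ := h2
        _ ≤ _ := by gcongr
    have h8 : ε ≤ m * (2 * δ) := by
      have : ε * (N * (N : ℝ) ^ (m - 1)) ≤ (m * (2 * δ)) * (N * (N : ℝ) ^ (m - 1)) := by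
        calc _ ≤ _ := h7
          _ = _ := by ring
      exact le_of_mul_le_mul_right this (by positivity)
    nlinarith)
  set P := X.biUnion f with hP
  have hfsub : ∀ v ∈ X, f v ⊆ A ∪ B := fun v hv => (hT v hv _ (hf1 v hv)).1.1
  have hfc : ∀ v ∈ X, (f v).card = m := fun v hv => (hT v hv _ (hf1 v hv)).1.2
  have hfA : ∀ v ∈ X, (A ∩ f v).card = (if v ∈ XA then 0 else 1) := fun v hv => by
    rw [inter_comm]; exact (hT v hv _ (hf1 v hv)).2.2
  have hfH : ∀ v ∈ X, insert v (f v) ∈ H := fun v hv => (hT v hv _ (hf1 v hv)).2.1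
  have hfAB : ∀ v ∈ X, (A ∩ f v).card + (B ∩ f v).card = m := by
    intro v hv
    rw [← card_union_of_disjoint (hAB.mono inter_subset_left inter_subset_left),
      ← union_inter_distrib_right, inter_eq_right.2 (hfsub v hv), hfc v hv]
  have hcA : ∀ Z : Finset α, (Z ∩ P).card = ∑ v ∈ X, (Z ∩ f v).card := by
    intro Z
    rw [hP, inter_biUnion, card_biUnion]
    intro v hv w hw hvw
    exact (hf2 v hv w hw hvw).mono inter_subset_right inter_subset_right
  have hsA : (A ∩ P).card = XB.card := by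
    have s1 : ∑ v ∈ XA, (if v ∈ XA then 0 else 1) = 0 :=
      sum_eq_zero (fun v hv => by simp [hv])
    have s2 : ∑ v ∈ XB, (if v ∈ XA then 0 else 1) = XB.card := by
      rw [sum_congr rfl (g := fun _ => 1) (fun v hv => by
        simp [disjoint_right.1 hXX hv])]
      simp
    rw [hcA, sum_congr rfl hfA, hXdef, sum_union hXX, s1, s2, zero_add]
  have hsB : (A ∩ P).card + (B ∩ P).card = m * X.card := by
    rw [hcA, hcA, ← sum_add_distrib, sum_congr rfl hfAB, sum_const, smul_eq_mul, mul_comm]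
  have hA' : (A \ P).card + (A ∩ P).card = A.card := card_sdiff_add_card_inter A P
  have hB' : (B \ P).card + (B ∩ P).card = B.card := card_sdiff_add_card_inter B P
  have hbal' : (B \ P).card = m * (A \ P).card := by
    have e1 : B.card + XB.card = m * A.card + m * XA.card := by rw [hbal, mul_add]
    have e2 : m * A.card = m * (A \ P).card + m * XB.card := by rw [← hA', hsA, mul_add]
    have e3 : m * X.card = m * XA.card + m * XB.card := by rw [hXc, mul_add]
    omega
  set N' := (A \ P).card + (B \ P).card with hN'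
  have hNN : N = N' + (m + 1) * X.card := by
    have e3 : (m + 1) * X.card = m * X.card + X.card := by ring
    omega
  have hN2 : (N : ℝ) ≤ 2 * N' := by
    have e1 : (N : ℝ) = N' + ((m : ℝ) + 1) * X.card := by
      have := congrArg (Nat.cast : ℕ → ℝ) hNN
      push_cast at this
      exact this
    have e2 : ((m : ℝ) + 1) * X.card ≤ ((m : ℝ) + 1) * (2 * δ * N) := by gcongr
    have e3 : ((m : ℝ) + 1) * (2 * δ * N) = (4 * ((m : ℝ) + 1) * δ) * N / 2 := by ring
    have e4 : (4 * ((m : ℝ) + 1) * δ) * N ≤ 1 * N := by gcongr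
    linarith
  have hN2' : N ≤ 2 * N' := by exact_mod_cast hN2
  have hδN : δ * (N : ℝ) ^ m ≤ δ0 * (N' : ℝ) ^ m := by
    calc δ * (N : ℝ) ^ m ≤ δ * (2 * (N' : ℝ)) ^ m := by gcongr
      _ = (2 ^ m * δ) * (N' : ℝ) ^ m := by rw [mul_pow]; ring
      _ ≤ δ0 * (N' : ℝ) ^ m := by gcongr
  obtain ⟨M2, hM2H, hM2, hM2u⟩ := h α N' (A \ P) (B \ P) H (by omega)
    (hAB.mono sdiff_subset sdiff_subset) rfl hbal' (by
      intro v hv
      have h1 := hA v (mem_sdiff.1 hv).1
      have h2 := mono_ty (m + 1) 0 H A B (A \ P) (B \ P) sdiff_subset sdiff_subset hAB v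
      have h3 : ((tys (m + 1) 0 (A \ P) (B \ P) v).card : ℝ) +
        ((ty (m + 1) 0 H A B v).card : ℝ) ≤ ((tys (m + 1) 0 A B v).card : ℝ) +
        ((ty (m + 1) 0 H (A \ P) (B \ P) v).card : ℝ) := by exact_mod_cast h2
      linarith) (by
      intro v hv
      have h1 := hB v (mem_sdiff.1 hv).1
      have h2 := mono_ty (m + 1) 1 H A B (A \ P) (B \ P) sdiff_subset sdiff_subset hAB v
      have h3 : ((tys (m + 1) 1 (A \ P) (B \ P) v).card : ℝ) +
        ((ty (m + 1) 1 H A B v).card : ℝ) ≤ ((tys (m + 1) 1 A B v).card : ℝ) +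
        ((ty (m + 1) 1 H (A \ P) (B \ P) v).card : ℝ) := by exact_mod_cast h2
      linarith)
  have hPX : Disjoint P X := by
    rw [disjoint_left]
    intro x hx hxX
    obtain ⟨v, hv, hxv⟩ := mem_biUnion.1 hx
    exact disjoint_left.1 hWX (hfsub v hv hxv) hxX
  have hPAB : P ⊆ A ∪ B := by
    intro x hx
    obtain ⟨v, hv, hxv⟩ := mem_biUnion.1 hx
    exact hfsub v hv hxv
  have hM2sub : ∀ e ∈ M2, e ⊆ (A \ P) ∪ (B \ P) := by
    intro e he
    rw [← hM2u]
    exact subset_biUnion_of_mem id he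
  have hM2d : ∀ e ∈ M2, ∀ v ∈ X, Disjoint (insert v (f v)) e := by
    intro e he v hv
    rw [disjoint_left]
    intro x hx hxe
    have hx2 : x ∈ (A ∪ B) ∧ x ∉ P := by
      have := hM2sub e he hxe
      rw [← union_sdiff_distrib] at this
      exact mem_sdiff.1 this
    rcases mem_insert.1 hx with hxv | hxf
    · exact disjoint_left.1 hWX hx2.1 (hxv ▸ hv)
    · exact hx2.2 (mem_biUnion.2 ⟨v, hv, hxf⟩)
  refine ⟨X.image (fun v => insert v (f v)) ∪ M2, ?_, ?_, ?_⟩
  · apply union_subset _ hM2H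
    intro e he
    obtain ⟨v, hv, rfl⟩ := mem_image.1 he
    exact hfH v hv
  · intro e he e' he' hee
    rcases mem_union.1 he with he1 | he1
    · obtain ⟨v, hv, rfl⟩ := mem_image.1 he1
      rcases mem_union.1 he' with he2 | he2
      · obtain ⟨w, hw, rfl⟩ := mem_image.1 he2
        have hvw : v ≠ w := fun hvw => hee (by rw [hvw])
        rw [disjoint_left]
        intro x hx hx'
        rcases mem_insert.1 hx with hx1 | hx1
        · rcases mem_insert.1 hx' with hx2 | hx2
          · exact hvw (hx1.symm.trans hx2)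
          · exact disjoint_left.1 hWX (hfsub w hw hx2) (hx1 ▸ hv)
        · rcases mem_insert.1 hx' with hx2 | hx2
          · exact disjoint_left.1 hWX (hfsub v hv hx1) (hx2 ▸ hw)
          · exact disjoint_left.1 (hf2 v hv w hw hvw) hx1 hx2
      · exact hM2d e' he2 v hv
    · rcases mem_union.1 he' with he2 | he2
      · obtain ⟨w, hw, rfl⟩ := mem_image.1 he2
        exact (hM2d e he1 w hw).symm
      · exact hM2 e he1 e' he2 hee
  · ext x
    constructor
    · intro hx
      obtain ⟨e, he, hxe⟩ := mem_biUnion.1 hx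
      simp only [id] at hxe
      rcases mem_union.1 he with he1 | he1
      · obtain ⟨v, hv, rfl⟩ := mem_image.1 he1
        rcases mem_insert.1 hxe with hx1 | hx1
        · exact mem_union_right _ (hx1 ▸ hv)
        · exact mem_union_left _ (hfsub v hv hx1)
      · have := hM2sub e he1 hxe
        rw [← union_sdiff_distrib] at this
        exact mem_union_left _ (mem_sdiff.1 this).1
    · intro hx
      rw [mem_biUnion]
      rcases mem_union.1 hx with hx1 | hx1
      · by_cases hxP : x ∈ P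
        · obtain ⟨v, hv, hxv⟩ := mem_biUnion.1 hxP
          exact ⟨insert v (f v), mem_union_left _ (mem_image.2 ⟨v, hv, rfl⟩),
            mem_insert_of_mem hxv⟩
        · have : x ∈ M2.biUnion id := by
            rw [hM2u, ← union_sdiff_distrib]
            exact mem_sdiff.2 ⟨hx1, hxP⟩
          obtain ⟨e, he, hxe⟩ := mem_biUnion.1 this
          exact ⟨e, mem_union_right _ he, hxe⟩
      · exact ⟨insert x (f x), mem_union_left _ (mem_image.2 ⟨x, hx1, rfl⟩),
          mem_insert_self _ _⟩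

end Pool.Agent.W140.SAM
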